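import Pool.Agent.TH180.OT.TwFam
import Pool.Agent.TH639.B3.Sq

/-!
The `L`-functions modulo `l` of the quadratic twists of the elliptic curves with a rational point of
prime order `l ≥ 5` over global function fields.
-/

set_option autoImplicit false
set_option linter.all false
set_option maxHeartbeats 4000000

open Polynomial Pool.Agent.W343.BSD Pool.Agent.W313.Gr

namespace Pool.Agent.Results.MP_ff7320_nt.OddTorsionTwists

section defs

open Classical in
/-- `E : y ^ 2 = x ^ 3 + a x + b` has a `K`-rational point of order `l`. -/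
def HasPointOfOrder {K : Type} [Field K] (l : ℕ) (a b : K) : Prop :=
  ∃ P : (curve a b).toAffine.Point, addOrderOf P = l

/-- `L` is the field `K(√u)`, and `u` is not a square in `K`. -/
def IsQuadratic {K : Type} (L : Type) [Field K] [Field L] [Algebra K L] (u : K) : Prop :=
  (∀ s : K, u ≠ s ^ 2) ∧
    ∃ θ : L, θ ^ 2 = algebraMap K L u ∧ IntermediateField.adjoin K {θ} = ⊤

/-- `E` has split multiplicative reduction at `v`. -/
def IsSplit {k K : Type} [Field k] [Field K] [Algebra k K] (v : FF.Place k K) (a b : K) : Prop :=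
  v.ord (minDisc v a b) ≠ 0 ∧ S.trace v a b = 1

open Classical in
/-- The sum over the places `v` of split multiplicative reduction of the largest power of `l`
dividing `deg v`. -/
noncomputable def splitSum (l : ℕ) (k : Type) {K : Type} [Field k] [Field K] [Algebra k K]
    (a b : K) : ℕ :=
  ∑ᶠ v : FF.Place k K, (if IsSplit v a b then 1 else 0) * l ^ padicValNat l (S.deg v)

open Classical in
/-- The factor of a place `v` of degree `d`: `1 - a_v (q T) ^ d` if `E` has bad reduction at `v`,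
where `a_v` is `1`, `-1` or `0` for split multiplicative, nonsplit multiplicative or additive
reduction, and `1` if `E` has good reduction at `v`. -/
noncomputable def placeFactor (l : ℕ) {k K : Type} [Field k] [Field K] [Algebra k K]
    (v : FF.Place k K) (a b : K) : (ZMod l)[X] :=
  if v.ord (minDisc v a b) = 0 then 1
  else 1 - C ((S.trace v a b : ℤ) : ZMod l) * (C (Nat.card k : ZMod l) * X) ^ S.deg v

/-- The congruence `P(T) P(q T) L(T, E) = Q(T) Q(q T) ∏ (factor of v)` modulo `l`. -/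
def Congruence (l : ℕ) (k : Type) {K : Type} [Field k] [Field K] [Algebra k K] (a b : K)
    (P Q : ℤ[X]) : Prop :=
  ((P.map (Int.castRingHom (ZMod l)) * (P.map (Int.castRingHom (ZMod l))).comp
      (C (Nat.card k : ZMod l) * X) : (ZMod l)[X]) : PowerSeries (ZMod l)) *
    PowerSeries.map (Int.castRingHom (ZMod l)) (S.Lfun k a b) =
  ((Q.map (Int.castRingHom (ZMod l)) * (Q.map (Int.castRingHom (ZMod l))).comp
      (C (Nat.card k : ZMod l) * X) * ∏ᶠ v : FF.Place k K, placeFactor l v a b : (ZMod l)[X]) :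
        PowerSeries (ZMod l))

/-- If `L(T, E)` is a polynomial then it does not vanish modulo `l` and its order of vanishing
modulo `l` at `T = 1 / q` is exactly `N - c`. -/
def OrderModL (l : ℕ) (k : Type) {K : Type} [Field k] [Field K] [Algebra k K] (a b : K)
    (c N : ℕ) : Prop :=
  ∀ Q : ℤ[X], S.Lfun k a b = (Q : PowerSeries ℤ) → Q.map (Int.castRingHom (ZMod l)) ≠ 0 ∧
    (Q.map (Int.castRingHom (ZMod l))).rootMultiplicity ((Nat.card k : ZMod l)⁻¹) + c = N

/-- `L(T, E) = L(T)` is an integral polynomial `P(T)`, of degree `N` say, and satisfies the functional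
equation `T ^ N L(T ^ (-1) / q) = ε L(T / q)`. -/
def HasSign (k : Type) {K : Type} [Field k] [Field K] [Algebra k K] (a b : K) (ε : ℤ) : Prop :=
  ∃ P : ℤ[X], S.Lfun k a b = (P : PowerSeries ℤ) ∧ ∀ x : ℚ, x ≠ 0 →
    x ^ P.natDegree * (P.map (Int.castRingHom ℚ)).eval (x * (Nat.card k : ℚ))⁻¹ =
      ε * (P.map (Int.castRingHom ℚ)).eval (x / (Nat.card k : ℚ))

/-- The order of vanishing of `L(T, E)` at `T = 1 / q` (if `L(T, E)` is a polynomial) is zero, even
modulo `l`, and the rank of the group of rational points is zero if it is at most the order. -/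
def OrderZero (l : ℕ) (k : Type) {K : Type} [Field k] [Field K] [Algebra k K] (a b : K) : Prop :=
  (∀ r : ℕ, HasOrder k a b r → r = 0 ∧ (rank a b ≤ r → rank a b = r)) ∧
  ∀ Q : ℤ[X], S.Lfun k a b = (Q : PowerSeries ℤ) →
    (Q.map (Int.castRingHom (ZMod l))).eval ((Nat.card k : ZMod l)⁻¹) ≠ 0

/-- The order of vanishing `r` is at most one; if the functional equation holds with the sign `1`
then `r` is zero, and so is the rank if it is at most `r`; if it holds with the sign `-1` then `r` is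
one. -/
def OrderBySign (k : Type) {K : Type} [Field k] [Field K] [Algebra k K] (a b : K) : Prop :=
  ∀ r : ℕ, HasOrder k a b r → r ≤ 1 ∧
    (HasSign k a b 1 → r = 0 ∧ (rank a b ≤ r → rank a b = r)) ∧
    (HasSign k a b (-1) → r = 1)

/-- The order of vanishing is at most `N - c`; it is zero if `N ≤ c` and given by the sign if
`N ≤ c + 1`. -/
def OrderBound (l : ℕ) (k : Type) {K : Type} [Field k] [Field K] [Algebra k K] (a b : K)
    (c N : ℕ) : Prop :=
  (∀ m : ℕ, S.VanishesTo k a b m → m + c ≤ N) ∧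
    (N ≤ c → OrderZero l k a b) ∧ (N ≤ c + 1 → OrderBySign k a b)

variable {k : Type} [Field k]

/-- The invariant `b₂` of the curve `y ^ 2 + (1 - γ) x y - β y = x ^ 3 - β x ^ 2`. -/
noncomputable def tateTwo (β γ : k[X]) : k[X] := (1 - γ) ^ 2 - 4 * β

/-- The coefficient `- 27 c₄` of the short form `y ^ 2 = x ^ 3 - 27 c₄ x - 54 c₆` of
`y ^ 2 + (1 - γ) x y - β y = x ^ 3 - β x ^ 2`. -/
noncomputable def shortA (β γ : k[X]) : RatFunc k :=
  algebraMap k[X] (RatFunc k) (-27 * (tateTwo β γ ^ 2 + 24 * β * (1 - γ)))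

/-- The coefficient `- 54 c₆` of the same short form. -/
noncomputable def shortB (β γ : k[X]) : RatFunc k :=
  algebraMap k[X] (RatFunc k)
    (54 * tateTwo β γ ^ 3 + 1944 * β * tateTwo β γ * (1 - γ) + 11664 * β ^ 2)

open Classical in
/-- The monic irreducible factors of a polynomial. -/
noncomputable def primes (g : k[X]) : Finset k[X] :=
  (UniqueFactorizationMonoid.normalizedFactors g).toFinset

open Classical in
/-- The quadratic symbol `(u / P)` for a prime `P` which does not divide `u`. -/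
noncomputable def symbol (u P : k[X]) : ℤ := if ∃ s : k[X], P ∣ u - s ^ 2 then 1 else -1

open Classical in
/-- The sum of `l ^ v_l(deg P)` over the monic irreducible factors `P` of `β` not dividing `u` with
`(u / P) = 1` and over those of `γ` not dividing `u` with `(u / P)` congruent to `q ^ deg P`
modulo `l`. -/
noncomputable def twistSum (l : ℕ) (u β γ : k[X]) : ℕ :=
  ∑ P ∈ (primes β).filter (fun P => ¬ P ∣ u ∧ ∃ s : k[X], P ∣ u - s ^ 2),
    l ^ padicValNat l P.natDegree +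
  ∑ P ∈ (primes γ).filter
    (fun P => ¬ P ∣ u ∧ (l : ℤ) ∣ (Nat.card k : ℤ) ^ P.natDegree - symbol u P),
    l ^ padicValNat l P.natDegree

/-- `u` is not a square modulo any irreducible factor of `g` which does not divide `u`. -/
def NonSquareModFactors (u g : k[X]) : Prop :=
  ∀ P : k[X], Irreducible P → P ∣ g → ¬ P ∣ u → ∀ s : k[X], ¬ P ∣ u - s ^ 2

/-- The coefficient `u ^ 2 a` of the twist. -/
noncomputable def twistA (u : k[X]) (a : RatFunc k) : RatFunc k :=
  algebraMap k[X] (RatFunc k) u ^ 2 * a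

/-- The coefficient `u ^ 3 b` of the twist. -/
noncomputable def twistB (u : k[X]) (b : RatFunc k) : RatFunc k :=
  algebraMap k[X] (RatFunc k) u ^ 3 * b

/-- The twists of `y ^ 2 = x ^ 3 + a x + b` by the squarefree polynomials `u` of odd degree. The field
`L = k(t)(√u)` has exact field of constants `k`; the order of vanishing is at most the sum of the
multiplicities of the roots `1 / q` and `1` modulo `l` of the numerator of the zeta function of `L`
and `twistSum`. If `q` is `1` modulo `l`, `l` does not divide the class number of `L` and `u` is not a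
square modulo the irreducible factors of `β γ` not dividing `u`, it is zero. For `u = t` the first
summand is zero and the condition on the class number is not necessary. -/
def TwistCase (l : ℕ) (β γ : k[X]) (a b : RatFunc k) : Prop :=
  (∀ u : k[X], Squarefree u → Odd u.natDegree →
    ∀ (L : Type) [Field L] [Algebra k L] [Algebra (RatFunc k) L]
      [IsScalarTower k (RatFunc k) L] [FF.IsFF k L],
      IsQuadratic L (algebraMap k[X] (RatFunc k) u) →
      constDeg k L = 1 ∧ ∃ Q : ℤ[X], IsNumerator k L Q ∧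
        OrderBound l k (twistA u a) (twistB u b) 0 (rootSum l k Q + twistSum l u β γ) ∧
        (l ∣ Nat.card k - 1 → ¬ l ∣ S.classNumber k L → NonSquareModFactors u (β * γ) →
          OrderZero l k (twistA u a) (twistB u b))) ∧
  OrderBound l k (twistA X a) (twistB X b) 0 (twistSum l X β γ) ∧
  (l ∣ Nat.card k - 1 → NonSquareModFactors X (β * γ) → OrderZero l k (twistA X a) (twistB X b))

/-- The twists of the curves with a point of order five. -/
def CaseFive (k : Type) [Field k] : Prop :=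
  ∀ β : k[X], β ≠ 0 → β ^ 2 - 11 * β - 1 ≠ 0 →
    4 * shortA β β ^ 3 + 27 * shortB β β ^ 2 ≠ 0 ∧
    HasPointOfOrder 5 (shortA β β) (shortB β β) ∧
    TwistCase 5 β (β ^ 2 - 11 * β - 1) (shortA β β) (shortB β β)

/-- The condition that `y ^ 2 = x ^ 3 + a x + b` is an elliptic curve with a point of order seven, and
the statement on its twists. -/
def SevenStatement (d : k[X]) (a b : RatFunc k) : Prop :=
  4 * a ^ 3 + 27 * b ^ 2 ≠ 0 ∧ HasPointOfOrder 7 a b ∧
    TwistCase 7 (d * (d - 1)) (d ^ 3 - 8 * d ^ 2 + 5 * d + 1) a b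

/-- The twists of the curves with a point of order seven. -/
def CaseSeven (k : Type) [Field k] : Prop :=
  ∀ d : k[X], d ≠ 0 → d - 1 ≠ 0 → d ^ 3 - 8 * d ^ 2 + 5 * d + 1 ≠ 0 →
    SevenStatement d (shortA (d ^ 3 - d ^ 2) (d ^ 2 - d)) (shortB (d ^ 3 - d ^ 2) (d ^ 2 - d))

/-- The statement on the twist `E^u` of `E`, where `L = K(√u)`: with the numerators `P` and `Q` of the
zeta functions of `K` and `L`, the congruence, the order modulo `l` and the bound for the order. -/
def TwistLaw (l : ℕ) (k K L : Type) [Field k] [Field K] [Algebra k K] [Field L] [Algebra k L]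
    (a b u : K) : Prop :=
  ∃ P Q : ℤ[X], IsNumerator k K P ∧ IsNumerator k L Q ∧
    Congruence l k (u ^ 2 * a) (u ^ 3 * b) P Q ∧
    OrderModL l k (u ^ 2 * a) (u ^ 3 * b) (rootSum l k P)
      (rootSum l k Q + splitSum l k (u ^ 2 * a) (u ^ 3 * b)) ∧
    OrderBound l k (u ^ 2 * a) (u ^ 3 * b) (rootSum l k P)
      (rootSum l k Q + splitSum l k (u ^ 2 * a) (u ^ 3 * b))

end defs

section proof

theorem vanishes_of {k K : Type} [Field k] [Finite k] [Field K] [Algebra k K] {a b : K} {r : ℕ}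
    (h : HasOrder k a b r) : S.VanishesTo k a b r := by
  obtain ⟨P, hP, hPr⟩ := h
  obtain ⟨G, hG⟩ := TH943.KD.dvd_of_mult (Nat.card_pos (α := k)).ne' hPr
  exact ⟨G, by rw [hP, hG]⟩

theorem sign_eq {k K : Type} [Field k] [Finite k] [Field K] [Algebra k K] [FF.IsFF k K] {a b : K}
    (hE : 4 * a ^ 3 + 27 * b ^ 2 ≠ 0) {r : ℕ} (hr : HasOrder k a b r) {ε : ℤ}
    (h : HasSign k a b ε) : (ε : ℚ) = (-1) ^ r := by
  obtain ⟨P, hP, hfe⟩ := h
  obtain ⟨Q, hQ, hQr⟩ := hr
  have h5 : P = Q := Polynomial.coe_injective _ (hP.symm.trans hQ)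
  rw [← h5] at hQr
  have hdeg : (P.map (Int.castRingHom ℚ)).natDegree = P.natDegree :=
    Polynomial.natDegree_map_eq_of_injective Int.cast_injective P
  have hq : (Nat.card k : ℚ) ≠ 0 := by exact_mod_cast (Nat.card_pos (α := k)).ne'
  have hP0 : P.map (Int.castRingHom ℚ) ≠ 0 := by
    rw [Ne, Polynomial.map_eq_zero_iff Int.cast_injective]
    rintro rfl
    have hu := unit_coeff (k := k) hE
    rw [hP] at hu
    simp at hu
  have h6' := TH943.LG.parity hq hP0 (ε := (ε : ℚ)) (by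
    intro x hx
    rw [hdeg]
    exact hfe x hx)
  rw [hQr] at h6'
  exact h6'

theorem zero_of {K : Type} [Field K] {a b : K} {r : ℕ} (h : r = 0) :
    r = 0 ∧ (rank a b ≤ r → rank a b = r) := by
  refine ⟨h, fun hle => le_antisymm hle ?_⟩
  rw [h]
  simp

theorem sign_of_bound {k K : Type} [Field k] [Finite k] [Field K] [Algebra k K] [FF.IsFF k K]
    {a b : K} (hE : 4 * a ^ 3 + 27 * b ^ 2 ≠ 0) {c N : ℕ}
    (hbd : ∀ m : ℕ, S.VanishesTo k a b m → m + c ≤ N) (h : N ≤ c + 1) : OrderBySign k a b := by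
  intro r hr
  have h1 := hbd r (vanishes_of hr)
  refine ⟨by omega, fun hs => ?_, fun hs => ?_⟩
  · have h2 := sign_eq hE hr hs
    apply zero_of
    rcases Nat.eq_zero_or_pos r with h0 | h0
    · exact h0
    · exfalso
      have : r = 1 := by omega
      rw [this] at h2
      norm_num at h2
  · have h2 := sign_eq hE hr hs
    rcases Nat.eq_zero_or_pos r with h0 | h0
    · exfalso
      rw [h0] at h2
      norm_num at h2
    · omega

theorem zero_of_bound {k K : Type} [Field k] [Finite k] [Field K] [Algebra k K] {l : ℕ} {a b : K}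
    {c N M : ℕ} (hbd : ∀ m : ℕ, S.VanishesTo k a b m → m + c ≤ N)
    (hex : OrderModL l k a b c N) (hNM : N ≤ M) (h : M ≤ c) : OrderZero l k a b := by
  refine ⟨fun r hr => ?_, fun Q hQ => ?_⟩
  · have h1 := hbd r (vanishes_of hr)
    exact zero_of (by omega)
  · obtain ⟨h1, h2⟩ := hex Q hQ
    have h3 : (Q.map (Int.castRingHom (ZMod l))).rootMultiplicity ((Nat.card k : ZMod l)⁻¹) = 0 := by
      omega
    intro h4
    rw [Polynomial.rootMultiplicity_eq_zero_iff] at h3
    exact h1 (h3 h4)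

theorem bound_of {k K : Type} [Field k] [Finite k] [Field K] [Algebra k K] [FF.IsFF k K] {l : ℕ}
    {a b : K} (hE : 4 * a ^ 3 + 27 * b ^ 2 ≠ 0) {c N M : ℕ}
    (hbd : ∀ m : ℕ, S.VanishesTo k a b m → m + c ≤ N)
    (hex : OrderModL l k a b c N) (hNM : N ≤ M) : OrderBound l k a b c M := by
  refine ⟨fun m hm => (hbd m hm).trans hNM, fun h => zero_of_bound hbd hex hNM h, fun h => ?_⟩
  exact sign_of_bound hE (fun m hm => (hbd m hm).trans hNM) h

theorem splitSum_eq {l : ℕ} {k K : Type} [Field k] [Field K] [Algebra k K] (a b : K) :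
    splitSum l k a b = TH180.OT.splSum l k a b := by
  classical
  unfold splitSum TH180.OT.splSum
  refine finsum_congr fun v => ?_
  congr 1
  unfold TH180.OT.spl
  by_cases h : v.ord (minDisc v a b) ≠ 0 ∧ S.trace v a b = 1
  · have h' : IsSplit v a b := h
    rw [if_pos h, if_pos h']
  · have h' : ¬ IsSplit v a b := h
    rw [if_neg h, if_neg h']

theorem factor_eq {l : ℕ} {k K : Type} [Field k] [Field K] [Algebra k K] (v : FF.Place k K)
    (a b : K) : placeFactor l v a b = TH180.OT.facT l v a b := rfl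

theorem two_K {k K : Type} [Field k] [Finite k] [Field K] [Algebra k K] (h6 : (6 : k) ≠ 0) :
    (2 : K) ≠ 0 := by
  have h := two_ne h6
  have h' : (2 : k) ≠ 0 := by exact_mod_cast h
  have : (2 : K) = algebraMap k K 2 := by rw [map_ofNat]
  rw [this]
  exact (_root_.map_ne_zero _).2 h'

/-- the general part -/
theorem general (k K L : Type) [Field k] [Finite k] [Field K] [Algebra k K] [FF.IsFF k K]
    [Field L] [Algebra k L] [Algebra K L] [IsScalarTower k K L] [FF.IsFF k L]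
    (h6 : (6 : k) ≠ 0) (hc : constDeg k K = 1) (hc' : constDeg k L = 1) {l : ℕ} (hl : l.Prime)
    (hl5 : 5 ≤ l) (hlk : (l : k) ≠ 0) {a b u : K} (hE : 4 * a ^ 3 + 27 * b ^ 2 ≠ 0)
    (ht : HasPointOfOrder l a b) (hq : IsQuadratic L u) {P Q : ℤ[X]} (hP : IsZetaNumRel k K P)
    (hQ : IsZetaNumRel k L Q) :
    4 * (u ^ 2 * a) ^ 3 + 27 * (u ^ 3 * b) ^ 2 ≠ 0 ∧
    Congruence l k (u ^ 2 * a) (u ^ 3 * b) P Q ∧
    OrderModL l k (u ^ 2 * a) (u ^ 3 * b) (rootSum l k P)
      (rootSum l k Q + splitSum l k (u ^ 2 * a) (u ^ 3 * b)) ∧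
    ∀ m : ℕ, S.VanishesTo k (u ^ 2 * a) (u ^ 3 * b) m →
      m + rootSum l k P ≤ rootSum l k Q + splitSum l k (u ^ 2 * a) (u ^ 3 * b) := by
  classical
  have : Fact l.Prime := ⟨hl⟩
  obtain ⟨T, hT⟩ := ht
  have h2 : (2 : K) ≠ 0 := two_K h6
  obtain ⟨x, y, LL, hcyc, -⟩ := TH180.OT.exists_cyc h2 T hT
  obtain ⟨hns, θ, hθ, htop⟩ := hq
  have hu : u ≠ 0 := by
    intro h0
    apply hns 0
    rw [h0]
    ring
  obtain ⟨q1, q2, q3⟩ := TH639.B3.quad_data h2 hθ hns htop
  have hrel := TH639.B3.zeta_rel h6 q3 hu hθ hns hP hQ hc hc'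
  refine ⟨TH639.B3.tw_disc_ne hE hu, ?_, ?_, ?_⟩
  · exact TH180.OT.cong_tw hl5 h6 hlk hcyc hE hu hrel
  · intro R hR
    rw [splitSum_eq]
    exact TH180.OT.rhs_rm hl5 h6 hlk hcyc hE hu (zeta_ne hP) (zeta_ne hQ) hrel hR
  · intro m hm
    rw [splitSum_eq]
    exact TH180.OT.bound_tw hl5 h6 hlk hcyc hE hu (zeta_ne hP) (zeta_ne hQ) hrel hm

section fam

variable {k : Type} [Field k] [Finite k]

theorem mem_primes {g P : k[X]} (hg : g ≠ 0) :
    P ∈ primes g ↔ P.Monic ∧ Irreducible P ∧ P ∣ g := TH943.LG.mem_primes hg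

theorem shortA_eq (β γ : k[X]) : shortA β γ = TH180.OT.fA β γ := rfl

theorem shortB_eq (β γ : k[X]) : shortB β γ = TH180.OT.fB β γ := rfl

theorem twistSum_eq (l : ℕ) (u β γ : k[X]) : twistSum l u β γ = TH180.OT.twP l u β γ := rfl

theorem rootSum_one (l : ℕ) [Fact l.Prime] : rootSum l k (1 : ℤ[X]) = 0 := by
  unfold rootSum
  have e : ∀ x : ZMod l, ((1 : ℤ[X]).map (Int.castRingHom (ZMod l))).rootMultiplicity x = 0 := by
    intro x
    rw [Polynomial.map_one]
    apply Polynomial.rootMultiplicity_eq_zero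
    simp
  rw [e, e]

/-- if `q` is one modulo `l`, the numerator has the root one modulo `l` only if `l` divides the class
number -/
theorem rootSum_zero {l : ℕ} [Fact l.Prime] {Q : ℤ[X]} {h : ℕ} (hq : l ∣ Nat.card k - 1)
    (hQ : Q.eval 1 = h) (h3 : ¬ l ∣ h) : rootSum l k Q = 0 := by
  have hpos : 1 ≤ Nat.card k := Nat.card_pos
  have hq1 : ((Nat.card k : ℕ) : ZMod l) = 1 := by
    have h1 : Nat.card k = (Nat.card k - 1) + 1 := by omega
    rw [h1, Nat.cast_add, (ZMod.natCast_eq_zero_iff _ _).2 hq, zero_add, Nat.cast_one]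
  have hr : (Q.map (Int.castRingHom (ZMod l))).rootMultiplicity 1 = 0 := by
    apply Polynomial.rootMultiplicity_eq_zero
    rw [Polynomial.IsRoot.def]
    have h1 : (Q.map (Int.castRingHom (ZMod l))).eval 1 = ((Q.eval 1 : ℤ) : ZMod l) := by
      have h2 := Polynomial.eval_map_apply (f := Int.castRingHom (ZMod l)) (p := Q) (x := (1 : ℤ))
      rw [map_one] at h2
      rw [h2, eq_intCast]
    rw [h1, hQ, Int.cast_natCast]
    exact fun h0 => h3 ((ZMod.natCast_eq_zero_iff _ _).1 h0)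
  unfold rootSum
  rw [hq1, inv_one, hr]

theorem pow_sub_one {l q n : ℕ} (hq : l ∣ q - 1) (hpos : 1 ≤ q) :
    (l : ℤ) ∣ (q : ℤ) ^ n - 1 := by
  have h1 : ((q : ℤ) - 1) ∣ (q : ℤ) ^ n - 1 := sub_one_dvd_pow_sub_one _ _
  refine dvd_trans ?_ h1
  have h2 : ((q - 1 : ℕ) : ℤ) = (q : ℤ) - 1 := by
    rw [Nat.cast_sub hpos, Nat.cast_one]
  rw [← h2]
  exact_mod_cast hq

theorem twistSum_zero {l : ℕ} (hl5 : 5 ≤ l) {u β γ : k[X]} (hβ : β ≠ 0) (hγ : γ ≠ 0)
    (hq : l ∣ Nat.card k - 1) (h : NonSquareModFactors u (β * γ)) : twistSum l u β γ = 0 := by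
  classical
  have h1 : (primes β).filter (fun P => ¬ P ∣ u ∧ ∃ s : k[X], P ∣ u - s ^ 2) = ∅ := by
    rw [Finset.filter_eq_empty_iff]
    rintro P hP ⟨h1, s, hs⟩
    obtain ⟨-, p2, p3⟩ := (mem_primes hβ).1 hP
    exact h P p2 (p3.mul_right _) h1 s hs
  have h2 : (primes γ).filter
      (fun P => ¬ P ∣ u ∧ (l : ℤ) ∣ (Nat.card k : ℤ) ^ P.natDegree - symbol u P) = ∅ := by
    rw [Finset.filter_eq_empty_iff]
    rintro P hP ⟨h1, h2⟩
    obtain ⟨-, p2, p3⟩ := (mem_primes hγ).1 hP
    have h3 : symbol u P = -1 := by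
      unfold symbol
      rw [if_neg]
      rintro ⟨s, hs⟩
      exact h P p2 (p3.mul_left _) h1 s hs
    have h4 := pow_sub_one (n := P.natDegree) hq (Nat.card_pos (α := k))
    rw [h3] at h2
    have h5 := dvd_sub h2 h4
    have h6 : (Nat.card k : ℤ) ^ P.natDegree - -1 - ((Nat.card k : ℤ) ^ P.natDegree - 1) = 2 := by
      ring
    rw [h6] at h5
    have h7 := Int.le_of_dvd (by norm_num) h5
    omega
  unfold twistSum
  rw [h1, h2, Finset.sum_empty]
  rfl

/-- the field `k(t)(√u)` has no new constants if `u` has odd degree -/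
theorem const_L {L : Type} [Field L] [Algebra k L] [Algebra (RatFunc k) L]
    [IsScalarTower k (RatFunc k) L] [FF.IsFF k L] (h6 : (6 : k) ≠ 0) {u : k[X]} (hu : u ≠ 0)
    (hodd : Odd u.natDegree) (hq : IsQuadratic L (algebraMap k[X] (RatFunc k) u)) :
    constDeg k L = 1 := by
  obtain ⟨hns, θ, hθ, htop⟩ := hq
  have h2 : (2 : RatFunc k) ≠ 0 := two_K h6
  obtain ⟨q1, q2, q3⟩ := TH639.B3.quad_data h2 hθ hns htop
  obtain ⟨v, hv⟩ := W309.RF.exists_inf (k := k)
  obtain ⟨S, e, f, D⟩ := exists_galoisFiber (L := L) v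
  have ho : Odd (v.ord (algebraMap k[X] (RatFunc k) u)) := by
    have h1 : v.ord (algebraMap k[X] (RatFunc k) u) = -(u.natDegree : ℤ) := W309.RF.inf_ord' hv hu
    rw [h1, _root_.Int.odd_iff]
    obtain ⟨j, hj⟩ := hodd
    rw [hj]
    push_cast
    omega
  obtain ⟨h3, h4⟩ := TH639.B3.fib_odd D q3 (W309.RF.A_ne hu) hθ ho
  obtain ⟨w, hw⟩ := D.nonempty
  exact TH639.B3.const_of_deg_one k w (by rw [D.deg w hw, W309.RF.inf_deg hv, h4])

/-- the twists of a curve over `k(t)` -/
theorem twistCase (h6 : (6 : k) ≠ 0) {l : ℕ} (hl : l.Prime) (hl5 : 5 ≤ l) (hlk : (l : k) ≠ 0)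
    {β γ : k[X]} (hβ : β ≠ 0) (hγ : γ ≠ 0) {a b : RatFunc k}
    (hE : 4 * a ^ 3 + 27 * b ^ 2 ≠ 0) (ht : HasPointOfOrder l a b)
    (hsum : ∀ u : k[X], Squarefree u → Odd u.natDegree →
      splitSum l k (twistA u a) (twistB u b) ≤ twistSum l u β γ) : TwistCase l β γ a b := by
  classical
  have : Fact l.Prime := ⟨hl⟩
  obtain ⟨s1, s2, s3⟩ := W309.RK.sb k
  have hP1 : IsZetaNumRel k (RatFunc k) 1 :=
    (S.isZetaNum_iff 1).1 (W309.RF.isZetaNum_rat (k := k))
  have hr1 := rootSum_one (k := k) l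
  refine ⟨?_, ?_⟩
  · intro u hsq hodd L _ _ _ _ _ hq
    have hc' := const_L h6 hsq.ne_zero hodd hq
    refine ⟨hc', ?_⟩
    obtain ⟨Q, hQ, hQ1⟩ := exists_num_rel k L
    have hQ1' : Q.eval 1 = S.classNumber k L := hQ1.trans (by rw [S.classNumber_eq])
    obtain ⟨g1, g2, g3, g4⟩ := general k (RatFunc k) L h6 s2 hc' hl hl5 hlk hE ht hq hP1 hQ
    rw [hr1] at g3 g4
    have hN := Nat.add_le_add_left (hsum u hsq hodd) (rootSum l k Q)
    refine ⟨Q, ⟨(S.isZetaNum_iff Q).2 hQ, hQ1'⟩, bound_of g1 g4 g3 hN, ?_⟩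
    intro hq1 hcl hnsq
    refine zero_of_bound g4 g3 hN ?_
    rw [rootSum_zero hq1 hQ1' hcl, twistSum_zero hl5 hβ hγ hq1 hnsq]
  · have hXsq : Squarefree (X : k[X]) := irreducible_X.squarefree
    have hXodd : Odd (X : k[X]).natDegree := by rw [natDegree_X]; exact odd_one
    have hqX : IsQuadratic (TH639.B3.Sq k) (algebraMap k[X] (RatFunc k) X) :=
      ⟨TH639.B3.not_sq k hXodd, TH639.B3.sqRoot k, by
        rw [RatFunc.algebraMap_X]; exact TH639.B3.sqRoot_sq k, TH639.B3.sq_top k⟩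
    have hc' := const_L h6 hXsq.ne_zero hXodd hqX
    obtain ⟨g1, g2, g3, g4⟩ := general k (RatFunc k) (TH639.B3.Sq k) h6 s2 hc' hl hl5 hlk hE ht
      hqX hP1 ((S.isZetaNum_iff 1).1 (TH639.B3.sq_num k))
    rw [hr1, zero_add] at g3 g4
    have hN := hsum X hXsq hXodd
    refine ⟨bound_of g1 g4 g3 hN, fun hq1 hnsq => zero_of_bound g4 g3 hN ?_⟩
    rw [twistSum_zero hl5 hβ hγ hq1 hnsq]

theorem caseFive (h6 : (6 : k) ≠ 0) (h5 : (5 : k) ≠ 0) {β : k[X]} (hβ : β ≠ 0)
    (hγ : β ^ 2 - 11 * β - 1 ≠ 0) :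
    4 * shortA β β ^ 3 + 27 * shortB β β ^ 2 ≠ 0 ∧ HasPointOfOrder 5 (shortA β β) (shortB β β) ∧
      TwistCase 5 β (β ^ 2 - 11 * β - 1) (shortA β β) (shortB β β) := by
  classical
  have : Fact (Nat.Prime 5) := ⟨by norm_num⟩
  have h5' : ((5 : ℕ) : k) ≠ 0 := by exact_mod_cast h5
  have hE : 4 * shortA β β ^ 3 + 27 * shortB β β ^ 2 ≠ 0 := TH180.OT.disc5 h6 hβ hγ
  obtain ⟨p, hp⟩ := TH180.OT.point5 h6 hβ hγ
  have ht : HasPointOfOrder 5 (shortA β β) (shortB β β) := ⟨_, hp⟩
  obtain ⟨x, y, L, hc, hns, hPt⟩ := TH180.OT.exists_cyc (TH180.OT.two_R h6) _ hp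
  obtain ⟨hx, hy⟩ := WeierstrassCurve.Affine.Point.some.inj hPt
  refine ⟨hE, ht, twistCase h6 (by norm_num) le_rfl h5' hβ hγ hE ht fun u hsq hodd => ?_⟩
  rw [splitSum_eq]
  exact TH180.OT.splSum5 h6 h5' hβ hγ hc hx.symm hy.symm hsq hodd

theorem caseSeven (h6 : (6 : k) ≠ 0) (h7 : (7 : k) ≠ 0) {d : k[X]} (hd0 : d ≠ 0) (hd1 : d - 1 ≠ 0)
    (hg : d ^ 3 - 8 * d ^ 2 + 5 * d + 1 ≠ 0) :
    4 * shortA (d ^ 3 - d ^ 2) (d ^ 2 - d) ^ 3 + 27 * shortB (d ^ 3 - d ^ 2) (d ^ 2 - d) ^ 2 ≠ 0 ∧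
      HasPointOfOrder 7 (shortA (d ^ 3 - d ^ 2) (d ^ 2 - d))
        (shortB (d ^ 3 - d ^ 2) (d ^ 2 - d)) ∧
      TwistCase 7 (d * (d - 1)) (d ^ 3 - 8 * d ^ 2 + 5 * d + 1)
        (shortA (d ^ 3 - d ^ 2) (d ^ 2 - d)) (shortB (d ^ 3 - d ^ 2) (d ^ 2 - d)) := by
  classical
  have : Fact (Nat.Prime 7) := ⟨by norm_num⟩
  have h7' : ((7 : ℕ) : k) ≠ 0 := by exact_mod_cast h7
  have hE : 4 * shortA (d ^ 3 - d ^ 2) (d ^ 2 - d) ^ 3 +
      27 * shortB (d ^ 3 - d ^ 2) (d ^ 2 - d) ^ 2 ≠ 0 := TH180.OT.disc7 h6 hd0 hd1 hg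
  obtain ⟨p, hp⟩ := TH180.OT.point7 h6 hd0 hd1 hg
  have ht : HasPointOfOrder 7 (shortA (d ^ 3 - d ^ 2) (d ^ 2 - d))
      (shortB (d ^ 3 - d ^ 2) (d ^ 2 - d)) := ⟨_, hp⟩
  obtain ⟨x, y, L, hc, hns, hPt⟩ := TH180.OT.exists_cyc (TH180.OT.two_R h6) _ hp
  obtain ⟨hx, hy⟩ := WeierstrassCurve.Affine.Point.some.inj hPt
  refine ⟨hE, ht, twistCase h6 (by norm_num) (by norm_num) h7' (mul_ne_zero hd0 hd1) hg hE ht
    fun u hsq hodd => ?_⟩
  rw [splitSum_eq]
  refine TH180.OT.splSum7 h6 h7' hd0 hd1 hg hc ?_ ?_ hsq hodd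
  · rw [TH180.OT.A_b7, TH180.OT.A_c7]
    exact hx.symm
  · rw [TH180.OT.A_b7]
    exact hy.symm

end fam

end proof

/-- Let `k` be a finite field with `q` elements of characteristic at least `5`.

(1) Let `K` be a function field over `k`, `l ≥ 5` a prime different from the characteristic,
`E : y ^ 2 = x ^ 3 + a x + b` an elliptic curve over `K` with a `K`-rational point of order `l`, `u`
in `K` not a square and `L = K(√u)`; let `k` be the exact field of constants of `K` and of `L` and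
`P` and `Q` the numerators of their zeta functions. Then the quadratic twist
`E^u : y ^ 2 = x ^ 3 + u ^ 2 a x + u ^ 3 b` satisfies

`P(T) P(q T) L(T, E^u) = Q(T) Q(q T) ∏_v (1 - a_v (q T) ^ deg v)`   modulo `l`,

where `v` runs through the places of bad reduction of `E^u`, with `a_v = 1`, `-1`, `0` if the
reduction is split multiplicative, nonsplit multiplicative, additive. Let `s` be the sum of
`l ^ v_l(deg v)` over the split places of `E^u` and `ρ(P)`, `ρ(Q)` the sums of the multiplicities of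
the roots `1 / q` and `1` modulo `l`. If `L(T, E^u)` is a polynomial then its order of vanishing
modulo `l` at `T = 1 / q` is exactly `ρ(Q) - ρ(P) + s`. So the order of vanishing of `L(T, E^u)` at
`T = 1 / q` is at most `ρ(Q) - ρ(P) + s`; if `ρ(Q) + s ≤ ρ(P)` it is `0`, the value `L(1 / q, E^u)` is
a unit at `l` and the rank of `E^u(K)` is `0` (if it is at most the order); if
`ρ(Q) + s ≤ ρ(P) + 1` the order is `0` or `1`, given by the sign of the functional equation.

(2) Let `K = k(t)` and `β` in `k[t]`, `β (β ^ 2 - 11 β - 1) ≠ 0`, and let the characteristic be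
different from `5`. The curve `E : y ^ 2 + (1 - β) x y - β y = x ^ 3 - β x ^ 2` has a point of order
five. Let `u` in `k[t]` be squarefree of odd degree; then `L = K(√u)` has exact field of constants `k`
and the order for `E^u` is at most `ρ(Q) + twistSum`. It is `0` if `q` is `1` modulo `5`, `5` does not
divide the class number of `L` and `u` is not a square modulo the irreducible factors of
`β (β ^ 2 - 11 β - 1)` not dividing `u`. For `u = t` the same holds with `ρ(Q) = 0` and without the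
condition on the class number.

(3) The same for the curve with `(d ^ 3 - d ^ 2, d ^ 2 - d)` in place of `(β, β)`, which has a point
of order seven (characteristic different from `7`), with `d (d - 1)` and
`d ^ 3 - 8 d ^ 2 + 5 d + 1` in place of `β` and `β ^ 2 - 11 β - 1`. -/
theorem result :
    (∀ (k K L : Type) [Field k] [Finite k] [Field K] [Algebra k K] [FF.IsFF k K]
      [Field L] [Algebra k L] [Algebra K L] [IsScalarTower k K L] [FF.IsFF k L],
      (6 : k) ≠ 0 → constDeg k K = 1 → constDeg k L = 1 →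
      ∀ l : ℕ, l.Prime → 5 ≤ l → (l : k) ≠ 0 →
      ∀ a b u : K, 4 * a ^ 3 + 27 * b ^ 2 ≠ 0 → HasPointOfOrder l a b → IsQuadratic L u →
      TwistLaw l k K L a b u) ∧
    ∀ (k : Type) [Field k] [Finite k], (6 : k) ≠ 0 → FF.IsFF k (RatFunc k) ∧
      constDeg k (RatFunc k) = 1 ∧
      ((5 : k) ≠ 0 → CaseFive k) ∧ ((7 : k) ≠ 0 → CaseSeven k) := by
  classical
  refine ⟨?_, ?_⟩
  · intro k K L _ _ _ _ _ _ _ _ _ _ h6 hc hc' l hl hl5 hlk a b u hE ht hq
    obtain ⟨P, hP, hP1⟩ := exists_num_rel k K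
    obtain ⟨Q, hQ, hQ1⟩ := exists_num_rel k L
    obtain ⟨g1, g2, g3, g4⟩ := general k K L h6 hc hc' hl hl5 hlk hE ht hq hP hQ
    exact ⟨P, Q, ⟨(S.isZetaNum_iff P).2 hP, hP1.trans (by rw [S.classNumber_eq])⟩,
      ⟨(S.isZetaNum_iff Q).2 hQ, hQ1.trans (by rw [S.classNumber_eq])⟩, g2, g3,
      bound_of g1 g4 g3 le_rfl⟩
  · intro k _ _ h6
    obtain ⟨s1, s2, s3⟩ := W309.RK.sb k
    exact ⟨s1, s2, fun h5 β hβ hγ => caseFive h6 h5 hβ hγ,
      fun h7 d hd hd1 hg => caseSeven h6 h7 hd hd1 hg⟩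

end Pool.Agent.Results.MP_ff7320_nt.OddTorsionTwists
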