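import Pool.Agent.TH180.R4.Par

/-!
# Pull-backs of elliptic surfaces with a section of order two, and rank four

Let `k` be a finite field of characteristic at least `5` and `a, b` in `k[T]`. For an element `f` of a
function field `K` over `k` let `E_f` be the curve `y ^ 2 = x (x ^ 2 + a(f) x + b(f))`. We bound the
order of vanishing of its `L`-function by the zeros of `b(f)` and of `a(f) ^ 2 - 4 b(f)`, compare the
rank of `E_f` with the rank of `E` over `k(T)`, and give a family of rational elliptic surfaces for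
which both are four.
-/

set_option autoImplicit false
set_option linter.all false
set_option maxHeartbeats 1000000

open Polynomial Pool.Agent.W343.BSD Pool.Agent.W313.Gr

namespace Pool.Agent.Results.MP_ff7320_nt.RankFourPullbacks

section defs

variable {k K : Type} [Field k] [Field K] [Algebra k K]

/-- The coefficient of `x` in the short form of `y ^ 2 = x (x ^ 2 + a x + b)` (replace `x` by
`x - a / 3`). -/
def coeffA (a b : K) : K := b - a ^ 2 / 3

/-- The constant coefficient of the same short form. -/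
def coeffB (a b : K) : K := 2 * a ^ 3 / 27 - a * b / 3

/-- The curve `y ^ 2 = x (x ^ 2 + a(T) x + b(T))` has only multiplicative bad fibres, and a good fibre
at infinity: `a` and `b` are coprime, of degree at most `2 n` and `4 n`, and
`b_{4 n} (a_{2 n} ^ 2 - 4 b_{4 n})` is not zero. -/
def Nice (n : ℕ) (a b : k[X]) : Prop :=
  0 < n ∧ IsCoprime a b ∧ a.natDegree ≤ 2 * n ∧ b.natDegree ≤ 4 * n ∧ b.coeff (4 * n) ≠ 0 ∧
    a.coeff (2 * n) ^ 2 ≠ 4 * b.coeff (4 * n)

/-- The rank over `k(T)` of `y ^ 2 = x (x ^ 2 + a(T) x + b(T))` is at least `R`. -/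
def RankOverLine (a b : k[X]) (R : ℕ) : Prop :=
  R ≤ rank (coeffA (algebraMap k[X] (RatFunc k) a) (algebraMap k[X] (RatFunc k) b))
    (coeffB (algebraMap k[X] (RatFunc k) a) (algebraMap k[X] (RatFunc k) b))

/-- The coefficient of `x` of the short form of `E_f : y ^ 2 = x (x ^ 2 + a(f) x + b(f))`. -/
noncomputable def pullA (a b : k[X]) (f : K) : K := coeffA (aeval f a) (aeval f b)

/-- The constant coefficient of the short form of `E_f`. -/
noncomputable def pullB (a b : k[X]) (f : K) : K := coeffB (aeval f a) (aeval f b)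

open Classical in
/-- The sum of `2 ^ v₂(deg v)` over the zeros `v` of `g` (without multiplicities). -/
noncomputable def zeroSum (k : Type) {K : Type} [Field k] [Field K] [Algebra k K] (g : K) : ℕ :=
  ∑ᶠ v : FF.Place k K, if 0 < v.ord g then 2 ^ padicValNat 2 (S.deg v) else 0

/-- The weights of the zeros of `b(f)` and of `a(f) ^ 2 - 4 b(f)`. -/
noncomputable def weight (a b : k[X]) (f : K) : ℕ :=
  zeroSum k (aeval f b) + zeroSum k (aeval f (a ^ 2 - 4 * b))

/-- `y ^ 2 = x ^ 3 + a x + b` is an elliptic curve with a non-constant `j`-invariant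
`6912 a ^ 3 / (4 a ^ 3 + 27 b ^ 2)`. -/
def NonIsotrivial (k : Type) {K : Type} [Field k] [Field K] [Algebra k K] (a b : K) : Prop :=
  4 * a ^ 3 + 27 * b ^ 2 ≠ 0 ∧
    ∀ c : k, 6912 * a ^ 3 / (4 * a ^ 3 + 27 * b ^ 2) ≠ algebraMap k K c

/-- If `L(T, E)` is `(1 - |k| T) ^ m G(T)` with `G` in `ℤ[T]` then `m + c ≤ N`. -/
def OrderBound (k : Type) {K : Type} [Field k] [Field K] [Algebra k K] (a b : K) (c N : ℕ) : Prop :=
  ∀ m : ℕ, S.VanishesTo k a b m → m + c ≤ N

/-- The rank is at least `R` and the order of vanishing `r` of `L(T, E)` at `T = 1 / |k|` (if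
`L(T, E)` is a polynomial) is at most `R`. If the rank is at most the order then both are `R`. -/
def RankAndOrder (k : Type) {K : Type} [Field k] [Field K] [Algebra k K] (a b : K) (R : ℕ) : Prop :=
  R ≤ rank a b ∧ OrderBound k a b 0 R ∧
    ∀ r : ℕ, HasOrder k a b r → r ≤ R ∧ (rank a b ≤ r → r = R ∧ rank a b = R)

/-- The parameters of the family of rank four. -/
def IsParam (p p' r r' s s' c d e g : k) : Prop :=
  (r * r' = p * p' * (s * s') ∧ c ^ 2 = r + r' + p * s + p' * s' ∧
    d ^ 2 = r + r' + p' * s + p * s' ∧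
    s * s' * e ^ 2 = (p + p') * (s * s') + r * s' + r' * s ∧
    s * s' * g ^ 2 = (p + p') * (s * s') + r' * s' + r * s) ∧
  p * p' * r * r' * s * s' * (p - p') * (r - r') * (s - s') ≠ 0 ∧
  ((r + r') * (p + p') + 2 * (p * p') * (s + s')) ^ 2 ≠ (p - p') ^ 2 * (r - r') ^ 2 ∧
  r + r' + (p + p') * s ≠ 0 ∧ r + r' + (p + p') * s' ≠ 0

/-- `a(T) = r + r' + (p + p') T ^ 2` -/
noncomputable def famA (p p' r r' : k) : k[X] := C (r + r') + C (p + p') * X ^ 2

/-- `b(T) = p p' (T ^ 2 - s) (T ^ 2 - s')` -/
noncomputable def famB (p p' s s' : k) : k[X] := C (p * p') * ((X ^ 2 - C s) * (X ^ 2 - C s'))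

/-- `π(m)` is irreducible for each irreducible factor `π` of `b (a ^ 2 - 4 b)`, and the degree of `m`
is odd. -/
def StaysIrreducible (a b m : k[X]) : Prop :=
  Odd m.natDegree ∧
    ∀ π : k[X], Irreducible π → π ∣ b * (a ^ 2 - 4 * b) → Irreducible (π.comp m)

end defs

section proof

open Pool.Agent.TH180.R4 in
theorem cA_eq {K : Type} [Field K] (a b : K) : coeffA a b = tA 1 a b := by
  unfold coeffA tA; ring

open Pool.Agent.TH180.R4 in
theorem cB_eq {K : Type} [Field K] (a b : K) : coeffB a b = tB 1 a b := by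
  unfold coeffB tB; ring

theorem nice_iff {k : Type} [Field k] {n : ℕ} {a b : k[X]} (h : Nice n a b) :
    TH180.R4.Nice n a b :=
  ⟨h.1, h.2.1, h.2.2.1, h.2.2.2.1, h.2.2.2.2.1, h.2.2.2.2.2⟩

theorem param {k : Type} [Field k] {p p' r r' s s' c d e g : k}
    (h : IsParam p p' r r' s s' c d e g) : TH180.R4.Sol p p' r r' s s' c d e g := by
  obtain ⟨⟨h1, h2, h3, h4, h5⟩, h6, h7, -, -⟩ := h
  refine ⟨h1, h2, h3, h4, h5, ?_, ?_, ?_, ?_, ?_, ?_, ?_, ?_, ?_, h7⟩
  · rintro rfl; apply h6; ring
  · rintro rfl; apply h6; ring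
  · rintro rfl; apply h6; ring
  · rintro rfl; apply h6; ring
  · rintro rfl; apply h6; ring
  · rintro rfl; apply h6; ring
  · rintro rfl; apply h6; ring
  · rintro rfl; apply h6; ring
  · rintro rfl; apply h6; ring

/-- the conclusions for one curve -/
theorem common {k K : Type} [Field k] [Finite k] [Field K] [Algebra k K] [FF.IsFF k K]
    (h6 : (6 : k) ≠ 0) (hr : constDeg k K = 1) (hodd : Odd (S.classNumber k K)) {n : ℕ}
    {a b : k[X]} (h : Nice n a b) {f : K} (hf : Transcendental k f) :
    NonIsotrivial k (pullA a b f) (pullB a b f) ∧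
      OrderBound k (pullA a b f) (pullB a b f) 4 (weight a b f) ∧
      ∀ R : ℕ, RankOverLine a b R → R ≤ rank (pullA a b f) (pullB a b f) ∧
        (weight a b f ≤ R + 4 → RankAndOrder k (pullA a b f) (pullB a b f) R) := by
  have h' := nice_iff h
  have F3 : (3 : K) ≠ 0 := TH180.R2.nz (TH180.R4.k23 h6).2
  have hb : OrderBound k (pullA a b f) (pullB a b f) 4 (weight a b f) := by
    intro m hm
    unfold pullA pullB at hm
    rw [cA_eq, cB_eq] at hm
    exact TH180.R4.bound4 h6 hr hodd h' hf hm
  refine ⟨?_, hb, ?_⟩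
  · have hΔ : 4 * pullA a b f ^ 3 + 27 * pullB a b f ^ 2 ≠ 0 := by
      unfold pullA pullB
      rw [cA_eq, cB_eq]
      have hd := TH180.R4.aeval_ne hf h'.d0
      rw [map_sub, map_pow, map_mul, map_ofNat] at hd
      exact TH180.R4.disc_ne F3 (TH180.R4.aeval_ne hf h'.b0) hd
    refine ⟨hΔ, fun c hc => ?_⟩
    have h1 := (div_eq_iff hΔ).1 hc
    unfold pullA pullB at h1
    rw [cA_eq, cB_eq] at h1
    exact TH180.R4.noniso4 h6 h' hf c h1
  · intro R hR
    have hrank : R ≤ rank (pullA a b f) (pullB a b f) := by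
      unfold RankOverLine at hR
      rw [cA_eq, cB_eq] at hR
      unfold pullA pullB
      rw [cA_eq, cB_eq]
      exact hR.trans (TH180.R4.rank_pull a b hf)
    refine ⟨hrank, fun hw => ?_⟩
    have hU : ∀ m : ℕ, S.VanishesTo k (pullA a b f) (pullB a b f) m → m ≤ R := by
      intro m hm
      have := hb m hm
      omega
    exact ⟨hrank, fun m hm => by have := hU m hm; omega,
      fun r hr' => TH180.R4.concl4 hrank hU r hr'⟩

/-- the family -/
theorem fam {k : Type} [Field k] [Finite k] (h6 : (6 : k) ≠ 0) {p p' r r' s s' c d e g : k}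
    (h : IsParam p p' r r' s s' c d e g) :
    Nice 1 (famA p p' r r') (famB p p' s s') ∧ RankOverLine (famA p p' r r') (famB p p' s s') 4 := by
  have hs := param h
  have hn := TH180.R4.nice_fam hs.p0 hs.p0' hs.pp h.2.2.2.1 h.2.2.2.2
  refine ⟨⟨hn.pos, hn.cop, hn.da, hn.db, hn.lb, hn.ld⟩, ?_⟩
  have h1 := TH180.R4.rank_rat4 h6 hs
  unfold RankOverLine
  rw [cA_eq, cB_eq]
  have ea : algebraMap k[X] (RatFunc k) (famA p p' r r') =
      TH180.R4.cA (algebraMap k (RatFunc k) p) (algebraMap k (RatFunc k) p')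
        (algebraMap k (RatFunc k) r) (algebraMap k (RatFunc k) r') (RatFunc.X ^ 2) := by
    rw [← TH180.R4.aeval_pA, ← RatFunc.algebraMap_X, aeval_algebraMap_apply, aeval_X_left_apply]
    rfl
  have eb : algebraMap k[X] (RatFunc k) (famB p p' s s') =
      TH180.R4.cB (algebraMap k (RatFunc k) p) (algebraMap k (RatFunc k) p')
        (algebraMap k (RatFunc k) s) (algebraMap k (RatFunc k) s') (RatFunc.X ^ 2) := by
    rw [← TH180.R4.aeval_pB, ← RatFunc.algebraMap_X, aeval_algebraMap_apply, aeval_X_left_apply]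
    rfl
  rw [ea, eb]
  exact_mod_cast h1

/-- the weight over the rational function field -/
theorem weight_le {k : Type} [Field k] [Finite k] {n : ℕ} {a b m : k[X]} (h : Nice n a b)
    (hm : StaysIrreducible a b m) :
    weight a b (algebraMap k[X] (RatFunc k) m) ≤ 8 * n := by
  have h' := nice_iff h
  have e : ∀ g : k[X], aeval (algebraMap k[X] (RatFunc k) m) g =
      algebraMap k[X] (RatFunc k) (g.comp m) := by
    intro g
    rw [aeval_algebraMap_apply, ← comp_eq_aeval]
  have h1 := TH180.R4.zSum_comp hm.1 b h'.b0 (fun π h2 h3 => hm.2 π h2 (h3.mul_right _))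
  have h2 := TH180.R4.zSum_comp hm.1 (a ^ 2 - 4 * b) h'.d0
    (fun π h2 h3 => hm.2 π h2 (h3.mul_left _))
  have hd : (a ^ 2 - 4 * b).natDegree ≤ 4 * n := by
    have e4 : (4 : k[X]) = C 4 := by rw [map_ofNat]
    refine (natDegree_sub_le _ _).trans (max_le ?_ ?_)
    · refine natDegree_pow_le.trans ?_
      have := h.2.2.1
      omega
    · rw [e4]
      exact (natDegree_C_mul_le _ _).trans h.2.2.2.1
  have h4 := h.2.2.2.1
  unfold weight
  rw [e, e]
  have h5 : zeroSum k (algebraMap k[X] (RatFunc k) (b.comp m)) ≤ b.natDegree := h1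
  have h6 : zeroSum k (algebraMap k[X] (RatFunc k) ((a ^ 2 - 4 * b).comp m)) ≤
      (a ^ 2 - 4 * b).natDegree := h2
  omega

end proof

/-- Let `k` be a finite field of characteristic at least `5` with `q` elements.

(1) Let `K` be a function field over `k` of any genus, with exact field of constants `k` and odd class
number, and let `f` in `K` be non-constant. Let `a, b` in `k[T]` be such that
`E : y ^ 2 = x (x ^ 2 + a(T) x + b(T))` has only multiplicative bad fibres and a good one at infinity.
Then `E_f : y ^ 2 = x (x ^ 2 + a(f) x + b(f))` has a non-constant `j`-invariant, and its `L`-function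
vanishes at `T = 1 / q` to order at most `N - 4`, where `N` is the sum of `2 ^ v₂(deg v)` over the
zeros of `b(f)` and of `a(f) ^ 2 - 4 b(f)`. If the rank of `E` over `k(T)` is at least `R` then so is
the rank of `E_f` over `K`; if moreover `N ≤ R + 4` then the order is at most `R`, and rank and order
are `R` if the rank is at most the order.

(2) For the parameters `IsParam` the rational elliptic surface
`y ^ 2 = x (x ^ 2 + (r + r' + (p + p') T ^ 2) x + p p' (T ^ 2 - s) (T ^ 2 - s'))` satisfies the
conditions of (1), with `R = 4`. There are parameters if `q ≥ 14`.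

(3) Let `K = k(t)` and let `n` be such that `deg a ≤ 2 n`, `deg b ≤ 4 n`. If `m` in `k[t]` has odd
degree and `π(m)` is irreducible for each irreducible factor `π` of `b (a ^ 2 - 4 b)` then `N ≤ 8 n`
for `f = m`; so the last conclusion of (1) holds for `f = m` if the rank of `E` over `k(T)` is at least
`R = 8 n - 4`, and in particular for the family (2), with `R = 4`.

(4) Such polynomials `m = c t ^ (l ^ j)` exist, with the same `c` for all `j`, if a prime `l > 8 n`
divides `q - 1` and `b (a ^ 2 - 4 b)` does not vanish at zero (which holds for the family (2)). -/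
theorem result :
    (∀ (k K : Type) [Field k] [Finite k] [Field K] [Algebra k K] [FF.IsFF k K], (6 : k) ≠ 0 →
      constDeg k K = 1 → Odd (S.classNumber k K) → ∀ (n : ℕ) (a b : k[X]), Nice n a b →
      ∀ f : K, (∀ c : k, f ≠ algebraMap k K c) →
      NonIsotrivial k (pullA a b f) (pullB a b f) ∧
      OrderBound k (pullA a b f) (pullB a b f) 4 (weight a b f) ∧
      ∀ R : ℕ, RankOverLine a b R → R ≤ rank (pullA a b f) (pullB a b f) ∧
        (weight a b f ≤ R + 4 → RankAndOrder k (pullA a b f) (pullB a b f) R)) ∧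
    ∀ (k : Type) [Field k] [Finite k], (6 : k) ≠ 0 →
      (∀ p p' r r' s s' c d e g : k, IsParam p p' r r' s s' c d e g →
        Nice 1 (famA p p' r r') (famB p p' s s') ∧
        RankOverLine (famA p p' r r') (famB p p' s s') 4 ∧
        (famB p p' s s' * (famA p p' r r' ^ 2 - 4 * famB p p' s s')).coeff 0 ≠ 0) ∧
      (14 ≤ Nat.card k → ∃ p p' r r' s s' c d e g : k, IsParam p p' r r' s s' c d e g) ∧
      ∀ (n : ℕ) (a b : k[X]), Nice n a b →
        (∀ m : k[X], StaysIrreducible a b m →
          weight a b (algebraMap k[X] (RatFunc k) m) ≤ 8 * n ∧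
          (RankOverLine a b (8 * n - 4) →
            RankAndOrder k (pullA a b (algebraMap k[X] (RatFunc k) m))
              (pullB a b (algebraMap k[X] (RatFunc k) m)) (8 * n - 4))) ∧
        ∀ l : ℕ, l.Prime → 8 * n < l → l ∣ Nat.card k - 1 →
          (b * (a ^ 2 - 4 * b)).coeff 0 ≠ 0 → ∃ c : k, c ≠ 0 ∧
            ∀ j : ℕ, StaysIrreducible a b (C c * X ^ l ^ j) := by
  classical
  refine ⟨?_, ?_⟩
  · intro k K _ _ _ _ _ h6 hr hodd n a b h f hf
    exact common h6 hr hodd h (TH180.R2.transc hr hf)
  · intro k _ _ h6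
    obtain ⟨s1, s2, s3⟩ := W309.RK.sb k
    refine ⟨?_, ?_, ?_⟩
    · intro p p' r r' s s' c d e g h
      obtain ⟨h1, h2⟩ := fam h6 h
      refine ⟨h1, h2, ?_⟩
      have hs := param h
      have e1 : (famB p p' s s').coeff 0 = p * p' * (s * s') := by
        unfold famB
        rw [coeff_zero_eq_eval_zero]
        simp
      have e2 : (famA p p' r r').coeff 0 = r + r' := by
        unfold famA
        rw [coeff_zero_eq_eval_zero]
        simp
      have e4 : eval (0 : k) (4 : k[X]) = 4 := by simp
      rw [mul_coeff_zero, coeff_zero_eq_eval_zero (famA p p' r r' ^ 2 - 4 * famB p p' s s'),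
        eval_sub, eval_pow, eval_mul, e4, ← coeff_zero_eq_eval_zero (famA p p' r r'),
        ← coeff_zero_eq_eval_zero (famB p p' s s'), e1, e2]
      have e3 : (r + r') ^ 2 - 4 * (p * p' * (s * s')) = (r - r') ^ 2 := by
        rw [← hs.rr]; ring
      rw [e3]
      exact mul_ne_zero (mul_ne_zero (mul_ne_zero hs.p0 hs.p0') (mul_ne_zero hs.s0 hs.s0'))
        (pow_ne_zero 2 (sub_ne_zero.2 hs.rne))
    · intro hq
      obtain ⟨p, p', r, r', s, s', c, d, e, g, hs, hn, hn'⟩ := TH180.R4.exists_sol h6 hq
      refine ⟨p, p', r, r', s, s', c, d, e, g, ⟨hs.rr, hs.h1, hs.h2, hs.h3, hs.h4⟩, ?_, hs.disc, hn,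
        hn'⟩
      exact mul_ne_zero (mul_ne_zero (mul_ne_zero (mul_ne_zero (mul_ne_zero (mul_ne_zero
        (mul_ne_zero (mul_ne_zero hs.p0 hs.p0') hs.r0) hs.r0') hs.s0) hs.s0')
        (sub_ne_zero.2 hs.pp)) (sub_ne_zero.2 hs.rne)) (sub_ne_zero.2 hs.ss)
    · intro n a b h
      refine ⟨?_, ?_⟩
      · intro m hm
        have hw := weight_le h hm
        refine ⟨hw, fun hR => ?_⟩
        have hm0 : 0 < m.natDegree := hm.1.pos
        have hf : Transcendental k (algebraMap k[X] (RatFunc k) m) := by
          apply TH180.R2.transc s2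
          intro c hc
          have : m = C c := RatFunc.algebraMap_injective k hc
          rw [this, natDegree_C] at hm0
          exact absurd hm0 (lt_irrefl 0)
        have hodd : Odd (S.classNumber k (RatFunc k)) := s3
        have hn := h.1
        exact ((common h6 s2 hodd h hf).2.2 _ hR).2 (by omega)
      · intro l hl hln hd h0
        have hdeg : (b * (a ^ 2 - 4 * b)).natDegree < l := by
          have hd' : (a ^ 2 - 4 * b).natDegree ≤ 4 * n := by
            have e4 : (4 : k[X]) = C 4 := by rw [map_ofNat]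
            refine (natDegree_sub_le _ _).trans (max_le ?_ ?_)
            · refine natDegree_pow_le.trans ?_
              have := h.2.2.1
              omega
            · rw [e4]
              exact (natDegree_C_mul_le _ _).trans h.2.2.2.1
          have h4 := h.2.2.2.1
          have := natDegree_mul_le (p := b) (q := a ^ 2 - 4 * b)
          omega
        have hn := h.1
        obtain ⟨c, hc, hcc⟩ := TH180.R4.exists_c h0 hl (by omega) hdeg hd
        refine ⟨c, hc, fun j => ⟨?_, fun π h1 h2 => hcc j π h1 h2⟩⟩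
        rw [natDegree_C_mul hc, natDegree_X_pow]
        exact (hl.odd_of_ne_two (by omega)).pow

end Pool.Agent.Results.MP_ff7320_nt.RankFourPullbacks
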