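import Pool.Agent.TH180.R2.Ex

/-!
# Rank and order of vanishing two for pull-backs of rational elliptic surfaces

Let `k` be a finite field of characteristic at least `5` and let `ρ` in `k` be such that
`ρ (ρ ^ 2 - 1) (9 ρ ^ 2 - 1) (3 ρ ^ 2 + 1)` is not zero. For a non-constant element `f` of a function
field `K` over `k` let `E_f` be the elliptic curve
`f y ^ 2 = x ^ 3 + (α x + β) ^ 2`, `α = 3 ρ ^ 2 + 1`, `β = 4 (ρ ^ 2 (ρ ^ 2 - 1) ^ 2 - f)`.
The rank is at least two, and the order of vanishing of the `L`-function is bounded in terms of the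
zeros of `f - ρ ^ 2 (ρ ^ 2 - 1) ^ 2` and of `27 f + (9 ρ ^ 2 - 1) ^ 2`.
-/

set_option autoImplicit false
set_option linter.all false
set_option maxHeartbeats 1000000

open Polynomial Pool.Agent.W343.BSD Pool.Agent.W313.Gr

namespace Pool.Agent.Results.MP_ff7320_nt.RankTwoPullbacks

section defs

/-- The parameters. -/
def Good {k : Type} [Field k] (ρ : k) : Prop :=
  ρ ≠ 0 ∧ ρ ^ 2 ≠ 1 ∧ 9 * ρ ^ 2 ≠ 1 ∧ 3 * ρ ^ 2 + 1 ≠ 0

variable {k K : Type} [Field k] [Field K] [Algebra k K]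

/-- The coefficient `α = 3 ρ ^ 2 + 1`. -/
def alpha (K : Type) [Field K] [Algebra k K] (ρ : k) : K := algebraMap k K (3 * ρ ^ 2 + 1)

/-- The coefficient `β = 4 (ρ ^ 2 (ρ ^ 2 - 1) ^ 2 - f)`. -/
def beta (ρ : k) (f : K) : K := 4 * (algebraMap k K ((ρ * (ρ ^ 2 - 1)) ^ 2) - f)

/-- The coefficient `a` of the short form `y ^ 2 = x ^ 3 + a x + b` of
`E_f : f y ^ 2 = x ^ 3 + (α x + β) ^ 2` (replace `x` by `x / f - α ^ 2 / 3` and `y` by
`y / f ^ 2`). -/
noncomputable def coeffA (ρ : k) (f : K) : K :=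
  f ^ 2 * (2 * alpha K ρ * beta ρ f - alpha K ρ ^ 4 / 3)

/-- The coefficient `b` of the same short form. -/
noncomputable def coeffB (ρ : k) (f : K) : K :=
  f ^ 3 * (beta ρ f ^ 2 - 2 * alpha K ρ ^ 3 * beta ρ f / 3 + 2 * alpha K ρ ^ 6 / 27)

/-- `f - ρ ^ 2 (ρ ^ 2 - 1) ^ 2` -/
def first (ρ : k) (f : K) : K := f - algebraMap k K ((ρ * (ρ ^ 2 - 1)) ^ 2)

/-- `27 f + (9 ρ ^ 2 - 1) ^ 2` -/
def second (ρ : k) (f : K) : K := 27 * f + algebraMap k K ((9 * ρ ^ 2 - 1) ^ 2)

/-- The order of every pole of `f` is odd or divisible by six. -/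
def PolesOddOrSix (k : Type) {K : Type} [Field k] [Field K] [Algebra k K] (f : K) : Prop :=
  ∀ v : FF.Place k K, v.ord f < 0 → Odd (v.ord f) ∨ 6 ∣ v.ord f

open Classical in
/-- The sum of `3 ^ v₃(deg v)` over the zeros `v` of `g` (without multiplicities). -/
noncomputable def zeroSum (k : Type) {K : Type} [Field k] [Field K] [Algebra k K] (g : K) : ℕ :=
  ∑ᶠ v : FF.Place k K, if 0 < v.ord g then 3 ^ padicValNat 3 (S.deg v) else 0

/-- `g` has exactly one zero, and the degree of this place is prime to three. -/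
def OneZero (k : Type) {K : Type} [Field k] [Field K] [Algebra k K] (g : K) : Prop :=
  ∃ v : FF.Place k K, 0 < v.ord g ∧ ¬ 3 ∣ S.deg v ∧ ∀ w : FF.Place k K, 0 < w.ord g → w = v

/-- `L` is the field `K(√f)`, and `f` is not a square in `K`. -/
def IsQuadratic (L : Type) [Field L] [Algebra K L] (f : K) : Prop :=
  (∀ s : K, f ≠ s ^ 2) ∧
    ∃ θ : L, θ ^ 2 = algebraMap K L f ∧ IntermediateField.adjoin K {θ} = ⊤

/-- `y ^ 2 = x ^ 3 + a x + b` is an elliptic curve with a non-constant `j`-invariant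
`6912 a ^ 3 / (4 a ^ 3 + 27 b ^ 2)`. -/
def NonIsotrivial (k : Type) {K : Type} [Field k] [Field K] [Algebra k K] (a b : K) : Prop :=
  4 * a ^ 3 + 27 * b ^ 2 ≠ 0 ∧
    ∀ c : k, 6912 * a ^ 3 / (4 * a ^ 3 + 27 * b ^ 2) ≠ algebraMap k K c

/-- If `L(T, E)` is `(1 - |k| T) ^ m G(T)` with `G` in `ℤ[T]` then `m + c ≤ N`. -/
def OrderBound (k : Type) {K : Type} [Field k] [Field K] [Algebra k K] (a b : K) (c N : ℕ) : Prop :=
  ∀ m : ℕ, S.VanishesTo k a b m → m + c ≤ N

/-- The rank is at least two and the order of vanishing `r` of `L(T, E)` at `T = 1 / |k|` (if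
`L(T, E)` is a polynomial) is at most two. If the rank is at most the order then both are two. -/
def RankAndOrderTwo (k : Type) {K : Type} [Field k] [Field K] [Algebra k K] (a b : K) : Prop :=
  2 ≤ rank a b ∧ OrderBound k a b 0 2 ∧
    ∀ r : ℕ, HasOrder k a b r → r ≤ 2 ∧ (rank a b ≤ r → r = 2 ∧ rank a b = 2)

/-- `m` is a polynomial such that `T - ρ ^ 2 (ρ ^ 2 - 1) ^ 2` and `27 T + (9 ρ ^ 2 - 1) ^ 2` are
irreducible of degree prime to three, where `T = t m(t) ^ 2`. -/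
def GoodPoly (ρ : k) (m : k[X]) : Prop :=
  m ≠ 0 ∧ ¬ 3 ∣ (X * m ^ 2).natDegree ∧ Irreducible (X * m ^ 2 - C ((ρ * (ρ ^ 2 - 1)) ^ 2)) ∧
    Irreducible (C 27 * (X * m ^ 2) + C ((9 * ρ ^ 2 - 1) ^ 2))

/-- The assertions for a pull-back, with `c` for the field `K` and `N` for the field `K(√f)`. -/
def Pullback (k : Type) {K : Type} [Field k] [Field K] [Algebra k K] (ρ : k) (f : K) (c N : ℕ) :
    Prop :=
  NonIsotrivial k (coeffA ρ f) (coeffB ρ f) ∧ 2 ≤ rank (coeffA ρ f) (coeffB ρ f) ∧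
    OrderBound k (coeffA ρ f) (coeffB ρ f) c
      (N + (zeroSum k (first ρ f) + zeroSum k (second ρ f))) ∧
    (N ≤ c → OneZero k (first ρ f) → OneZero k (second ρ f) →
      RankAndOrderTwo k (coeffA ρ f) (coeffB ρ f))

end defs

section proof

open Pool.Agent.TH180.R2 in
theorem coeffA_eq {k K : Type} [Field k] [Field K] [Algebra k K] (ρ : k) (f : K) : coeffA ρ f =
    f ^ 2 * sA (algebraMap k K (3 * ρ ^ 2 + 1))
      (4 * (algebraMap k K (ρ * (ρ ^ 2 - 1)) ^ 2 - f)) := by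
  unfold coeffA alpha beta sA
  rw [map_pow (algebraMap k K) (ρ * (ρ ^ 2 - 1))]

open Pool.Agent.TH180.R2 in
theorem coeffB_eq {k K : Type} [Field k] [Field K] [Algebra k K] (ρ : k) (f : K) : coeffB ρ f =
    f ^ 3 * sB (algebraMap k K (3 * ρ ^ 2 + 1))
      (4 * (algebraMap k K (ρ * (ρ ^ 2 - 1)) ^ 2 - f)) := by
  unfold coeffB alpha beta sB
  rw [map_pow (algebraMap k K) (ρ * (ρ ^ 2 - 1))]

theorem zeroSum_first {k K : Type} [Field k] [Field K] [Algebra k K] (ρ : k) (f : K) :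
    zeroSum k (first ρ f) =
      TH180.R2.zeroSum k (algebraMap k K ((ρ * (ρ ^ 2 - 1)) ^ 2) - f) := by
  unfold zeroSum TH180.R2.zeroSum first
  congr 1
  funext v
  rw [← v.ord_neg, neg_sub]

theorem zeroSum_second {k K : Type} [Field k] [Field K] [Algebra k K] (ρ : k) (f : K) :
    zeroSum k (second ρ f) = TH180.R2.zeroSum k
      (27 * f + algebraMap k K ((3 * ρ ^ 2 + 1) ^ 3 - 27 * (ρ * (ρ ^ 2 - 1)) ^ 2)) := by
  have e : (3 * ρ ^ 2 + 1) ^ 3 - 27 * (ρ * (ρ ^ 2 - 1)) ^ 2 = (9 * ρ ^ 2 - 1) ^ 2 := by ring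
  rw [e]
  rfl

/-- if `q` is one modulo three, the numerator has the root one modulo three only if three divides
the class number -/
theorem rootSum_zero {k : Type} [Field k] [Finite k] {Q : ℤ[X]} {h : ℕ} (hq : 3 ∣ Nat.card k - 1)
    (hQ : Q.eval 1 = h) (h3 : ¬ 3 ∣ h) : rootSum 3 k Q = 0 := by
  have : Fact (Nat.Prime 3) := ⟨Nat.prime_three⟩
  have hpos : 1 ≤ Nat.card k := Nat.card_pos
  have hq1 : ((Nat.card k : ℕ) : ZMod 3) = 1 := by
    have h1 : Nat.card k = (Nat.card k - 1) + 1 := by omega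
    rw [h1, Nat.cast_add, (ZMod.natCast_eq_zero_iff _ _).2 hq, zero_add, Nat.cast_one]
  have hr : (Q.map (Int.castRingHom (ZMod 3))).rootMultiplicity 1 = 0 := by
    apply Polynomial.rootMultiplicity_eq_zero
    rw [Polynomial.IsRoot.def]
    have h1 : (Q.map (Int.castRingHom (ZMod 3))).eval 1 = ((Q.eval 1 : ℤ) : ZMod 3) := by
      have h2 := Polynomial.eval_map_apply (f := Int.castRingHom (ZMod 3)) (p := Q) (x := (1 : ℤ))
      rw [map_one] at h2
      rw [h2, eq_intCast]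
    rw [h1, hQ, Int.cast_natCast]
    exact fun h0 => h3 ((ZMod.natCast_eq_zero_iff _ _).1 h0)
  unfold rootSum
  rw [hq1, inv_one, hr]

theorem good_data {k : Type} [Field k] {ρ : k} (h : Good ρ) :
    ρ * (ρ ^ 2 - 1) ≠ 0 ∧ (3 * ρ ^ 2 + 1) ^ 3 - 27 * (ρ * (ρ ^ 2 - 1)) ^ 2 ≠ 0 := by
  obtain ⟨h0, h1, h9, -⟩ := h
  refine ⟨mul_ne_zero h0 (sub_ne_zero.2 h1), ?_⟩
  have e : (3 * ρ ^ 2 + 1) ^ 3 - 27 * (ρ * (ρ ^ 2 - 1)) ^ 2 = (9 * ρ ^ 2 - 1) ^ 2 := by ring
  rw [e]
  exact pow_ne_zero 2 (sub_ne_zero.2 h9)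

/-- everything but the bound for the order -/
theorem common {k K : Type} [Field k] [Finite k] [Field K] [Algebra k K] [FF.IsFF k K]
    (h6 : (6 : k) ≠ 0) {ρ : k} (hρ : Good ρ) {f : K} (hf : Transcendental k f) {c N : ℕ}
    (hb : OrderBound k (coeffA ρ f) (coeffB ρ f) c
      (N + (zeroSum k (first ρ f) + zeroSum k (second ρ f)))) : Pullback k ρ f c N := by
  obtain ⟨hz, he⟩ := good_data hρ
  obtain ⟨h0, h1, h9, ha⟩ := hρ
  have k3 : (3 : k) ≠ 0 := TH639.B3.h3_of h6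
  have k2 : (2 : k) ≠ 0 := by
    intro h; apply h6
    have : (6 : k) = 2 * 3 := by norm_num
    rw [this, h, zero_mul]
  have F2 : (2 : K) ≠ 0 := TH180.R2.nz k2
  have F3 : (3 : K) ≠ 0 := TH180.R2.nz k3
  have hf0 : f ≠ 0 := by
    rintro rfl
    exact hf isAlgebraic_zero
  have hrank : 2 ≤ rank (coeffA ρ f) (coeffB ρ f) := by
    have h := TH180.R2.rank_ge h6 h0 h1 h9 hf
    have e1 : 3 * algebraMap k K ρ ^ 2 + 1 = algebraMap k K (3 * ρ ^ 2 + 1) := by
      rw [map_add, map_mul, map_pow, map_one, map_ofNat]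
    have e2 : algebraMap k K ρ * (algebraMap k K ρ ^ 2 - 1) = algebraMap k K (ρ * (ρ ^ 2 - 1)) := by
      rw [map_mul, map_sub, map_pow, map_one]
    rw [e1, e2, ← coeffA_eq, ← coeffB_eq] at h
    exact h
  have hj : ∀ c : k, 6912 * coeffA ρ f ^ 3 ≠
      algebraMap k K c * (4 * coeffA ρ f ^ 3 + 27 * coeffB ρ f ^ 2) := by
    intro c
    rw [coeffA_eq, coeffB_eq]
    exact TH180.R2.noniso h6 _ _ ha hf c
  have hΔ : 4 * coeffA ρ f ^ 3 + 27 * coeffB ρ f ^ 2 ≠ 0 := by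
    rw [coeffA_eq, coeffB_eq, TH180.R2.tw_disc, TH180.R2.disc_s F3]
    have hw0 : algebraMap k K (ρ * (ρ ^ 2 - 1)) ^ 2 - f ≠ 0 := by
      intro h
      apply hf
      rw [← sub_eq_zero.1 h]
      exact (isAlgebraic_algebraMap _).pow 2
    have F4 : (4 : K) ≠ 0 := by
      have : (4 : K) = 2 * 2 := by norm_num
      rw [this]; exact mul_ne_zero F2 F2
    have hg0 : 27 * f + algebraMap k K ((9 * ρ ^ 2 - 1) ^ 2) ≠ 0 := by
      intro h
      apply hf
      have h27 : (27 : K) ≠ 0 := TH180.R2.ne27 F3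
      have e : f = algebraMap k K (-((9 * ρ ^ 2 - 1) ^ 2) / 27) := by
        rw [map_div₀, map_neg, map_ofNat, eq_div_iff h27]
        linear_combination h
      rw [e]
      exact isAlgebraic_algebraMap _
    have hγ : 4 * algebraMap k K (3 * ρ ^ 2 + 1) ^ 3 -
        27 * (4 * (algebraMap k K (ρ * (ρ ^ 2 - 1)) ^ 2 - f)) =
        4 * (27 * f + algebraMap k K ((9 * ρ ^ 2 - 1) ^ 2)) := by
      simp only [map_add, map_sub, map_mul, map_pow, map_one, map_ofNat]
      ring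
    rw [hγ]
    exact mul_ne_zero (pow_ne_zero 6 hf0) (neg_ne_zero.2 (mul_ne_zero (pow_ne_zero 3
      (mul_ne_zero F4 hw0)) (mul_ne_zero F4 hg0)))
  refine ⟨⟨hΔ, fun c hc => hj c ((div_eq_iff hΔ).1 hc)⟩, hrank, hb, ?_⟩
  intro hNc z1 z2
  have hs1 : zeroSum k (first ρ f) = 1 := TH180.R2.zeroSum_one z1
  have hs2 : zeroSum k (second ρ f) = 1 := TH180.R2.zeroSum_one z2
  have hU : ∀ m : ℕ, S.VanishesTo k (coeffA ρ f) (coeffB ρ f) m → m ≤ 2 := by
    intro m hm
    have h3 := hb m hm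
    rw [hs1, hs2] at h3
    omega
  exact ⟨hrank, fun m hm => by have := hU m hm; omega, fun r hr => TH180.R2.concl hrank hU r hr⟩

end proof

/-- Let `k` be a finite field of characteristic at least `5` with `q` elements.

(1) Let `K` be a function field over `k` of any genus, with exact field of constants `k`, and let `f`
in `K` be non-constant and not a square, all of whose poles have odd order or order divisible by six,
such that `L = K(√f)` also has exact field of constants `k`. Let `P` and `Q` be the numerators of the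
zeta functions of `K` and `L` and `ρ(P)`, `ρ(Q)` the sums of the multiplicities of the roots `1 / q`
and `1` modulo three. Then `E_f` has a non-constant `j`-invariant, its rank over `K` is at least two,
and its `L`-function vanishes at `T = 1 / q` to order at most `ρ(Q) - ρ(P) + s + s'`, where `s` and
`s'` are the sums of `3 ^ v₃(deg v)` over the zeros of `f - ρ ^ 2 (ρ ^ 2 - 1) ^ 2` and of
`27 f + (9 ρ ^ 2 - 1) ^ 2`. If `ρ(Q) ≤ ρ(P)` and both functions have exactly one zero, of degree prime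
to three, then the order is at most two, and rank and order are two if the rank is at most the order.
The number `ρ(Q)` is zero if `q` is `1` modulo `3` and `3` does not divide the class number of `L`.

(2) The same for `K = k(t)` and `f = t g(t) ^ 2` with `ρ(P)`, `ρ(Q)` replaced by zero.

(3) If `m` in `k[t]` is such that `T - ρ ^ 2 (ρ ^ 2 - 1) ^ 2` and `27 T + (9 ρ ^ 2 - 1) ^ 2` are
irreducible of degree prime to three, where `T = t m(t) ^ 2`, then the last conclusion of (1) holds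
for `f = T`.

(4) There are parameters `ρ` if `q ≥ 8`; if a prime `l ≥ 5` divides `q - 1` then for each `ρ` there are
such polynomials `T` of degree `l ^ j`, for all `j`. -/
theorem result :
    (∀ (k K L : Type) [Field k] [Finite k] [Field K] [Algebra k K] [FF.IsFF k K]
      [Field L] [Algebra k L] [Algebra K L] [IsScalarTower k K L] [FF.IsFF k L],
      (6 : k) ≠ 0 → constDeg k K = 1 → constDeg k L = 1 → ∀ (ρ : k) (f : K), Good ρ →
      (∀ c : k, f ≠ algebraMap k K c) → PolesOddOrSix k f → IsQuadratic L f →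
      ∃ P Q : ℤ[X], IsNumerator k K P ∧ IsNumerator k L Q ∧
        Pullback k ρ f (rootSum 3 k P) (rootSum 3 k Q) ∧
        (3 ∣ Nat.card k - 1 → ¬ 3 ∣ S.classNumber k L → rootSum 3 k Q = 0)) ∧
    ∀ (k : Type) [Field k] [Finite k], (6 : k) ≠ 0 → FF.IsFF k (RatFunc k) ∧
      constDeg k (RatFunc k) = 1 ∧
      (∀ (ρ : k) (g : RatFunc k), Good ρ → g ≠ 0 → PolesOddOrSix k (RatFunc.X * g ^ 2) →
        Pullback k ρ (RatFunc.X * g ^ 2) 0 0) ∧
      (∀ (ρ : k) (m : k[X]), Good ρ → GoodPoly ρ m → RankAndOrderTwo k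
        (coeffA ρ (algebraMap k[X] (RatFunc k) (X * m ^ 2)))
        (coeffB ρ (algebraMap k[X] (RatFunc k) (X * m ^ 2)))) ∧
      (8 ≤ Nat.card k → ∃ ρ : k, Good ρ) ∧
      ∀ l : ℕ, l.Prime → 5 ≤ l → l ∣ Nat.card k - 1 → ∀ ρ : k, Good ρ → ∃ c : k, c ≠ 0 ∧
        ∀ j : ℕ, GoodPoly ρ (C c * X ^ ((l ^ j - 1) / 2)) ∧
          (X * (C c * X ^ ((l ^ j - 1) / 2)) ^ 2 : k[X]).natDegree = l ^ j := by
  classical
  refine ⟨?_, ?_⟩
  · intro k K L _ _ _ _ _ _ _ _ _ _ h6 hc hc' ρ f hρ hf hpole hq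
    obtain ⟨hns, θ, hθ, htop⟩ := hq
    obtain ⟨hz, he⟩ := good_data hρ
    obtain ⟨P, hP, hP1⟩ := exists_num_rel k K
    obtain ⟨Q, hQ, hQ1⟩ := exists_num_rel k L
    have hQ1' : Q.eval 1 = S.classNumber k L := hQ1.trans (by rw [S.classNumber_eq])
    refine ⟨P, Q, ⟨(S.isZetaNum_iff P).2 hP, hP1.trans (by rw [S.classNumber_eq])⟩,
      ⟨(S.isZetaNum_iff Q).2 hQ, hQ1'⟩, common h6 hρ (TH180.R2.transc hc hf) ?_,
      fun hq1 hcl => rootSum_zero hq1 hQ1' hcl⟩
    intro m hm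
    rw [zeroSum_first, zeroSum_second]
    rw [coeffA_eq, coeffB_eq] at hm
    exact TH180.R2.bound h6 hc hc' hρ.2.2.2 hz he hf hpole hns hθ htop hP hQ hm
  · intro k _ _ h6
    obtain ⟨s1, s2, s3⟩ := W309.RK.sb k
    have hrat : ∀ (ρ : k) (g : RatFunc k), Good ρ → g ≠ 0 → PolesOddOrSix k (RatFunc.X * g ^ 2) →
        Pullback k ρ (RatFunc.X * g ^ 2) 0 0 := by
      intro ρ g hρ hg hpole
      obtain ⟨hz, he⟩ := good_data hρ
      refine common h6 hρ (TH180.R2.transc s2 (TH180.R2.tm_not_const hg)) ?_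
      intro m hm
      rw [zeroSum_first, zeroSum_second]
      rw [coeffA_eq, coeffB_eq] at hm
      have := TH180.R2.bound_rat h6 hρ.2.2.2 hz he hg hpole hm
      omega
    refine ⟨s1, s2, hrat, ?_, fun hq => TH180.R2.exists_param h6 hq, ?_⟩
    · intro ρ m hρ hm
      obtain ⟨hm0, hd, hi1, hi2⟩ := hm
      have hA0 : algebraMap k[X] (RatFunc k) m ≠ 0 := W309.RF.A_ne hm0
      have e : algebraMap k[X] (RatFunc k) (X * m ^ 2) =
          RatFunc.X * (algebraMap k[X] (RatFunc k) m) ^ 2 := by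
        rw [map_mul, map_pow, RatFunc.algebraMap_X]
      have hpole : PolesOddOrSix k (RatFunc.X * (algebraMap k[X] (RatFunc k) m) ^ 2) :=
        fun v hv => Or.inl (TH180.R2.poles_poly hm0 v hv)
      have hP := hrat ρ _ hρ hA0 hpole
      rw [← e] at hP
      have hAC : ∀ c : k, algebraMap k[X] (RatFunc k) (C c) = algebraMap k (RatFunc k) c :=
        fun _ => rfl
      have d0 : 0 < (X * m ^ 2).natDegree := by
        rw [natDegree_mul X_ne_zero (pow_ne_zero 2 hm0), natDegree_X]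
        omega
      have k27 : (27 : k) ≠ 0 := TH180.R2.ne27 (TH639.B3.h3_of h6)
      have e1 : first ρ (algebraMap k[X] (RatFunc k) (X * m ^ 2)) =
          algebraMap k[X] (RatFunc k) (X * m ^ 2 - C ((ρ * (ρ ^ 2 - 1)) ^ 2)) := by
        unfold first
        rw [map_sub, hAC]
      have e2 : second ρ (algebraMap k[X] (RatFunc k) (X * m ^ 2)) =
          algebraMap k[X] (RatFunc k) (C 27 * (X * m ^ 2) + C ((9 * ρ ^ 2 - 1) ^ 2)) := by
        unfold second
        have : algebraMap k[X] (RatFunc k) (C 27) = 27 := by rw [hAC, map_ofNat]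
        rw [map_add, map_mul _ (C 27), this, hAC]
      refine hP.2.2.2 le_rfl ?_ ?_
      · rw [e1]
        apply TH180.R2.one_zero hi1
        rw [natDegree_sub_C]
        exact hd
      · rw [e2]
        apply TH180.R2.one_zero hi2
        rw [natDegree_add_C, natDegree_C_mul k27]
        exact hd
    · intro l hl hl5 hdv ρ hρ
      have hz : (ρ * (ρ ^ 2 - 1)) ^ 2 ≠ 0 := pow_ne_zero 2 (good_data hρ).1
      have he : (9 * ρ ^ 2 - 1) ^ 2 ≠ 0 := pow_ne_zero 2 (sub_ne_zero.2 hρ.2.2.1)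
      obtain ⟨c, hc, h⟩ := TH180.R2.exists_poly h6 hl hl5 hdv hz he
      refine ⟨c, hc, fun j => ?_⟩
      obtain ⟨h1, h2, h3⟩ := h j
      refine ⟨⟨mul_ne_zero (C_ne_zero.2 hc) (pow_ne_zero _ X_ne_zero), ?_, h1, h2⟩, h3⟩
      rw [h3]
      intro h4
      have h5 := (Nat.prime_dvd_prime_iff_eq Nat.prime_three hl).1
        (Nat.prime_three.dvd_of_dvd_pow h4)
      omega

end Pool.Agent.Results.MP_ff7320_nt.RankTwoPullbacks
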