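import Pool.Agent.TH958.TA.Fin

/-!
Rank and order of vanishing for the elliptic curves `y ^ 2 = x ((x - 1) ^ 2 - h ^ m)`, `m` a divisor of
`(p ^ ν + 1) / 2`, with exactly one rational point of order two, over function fields of curves of
every genus.
-/

set_option autoImplicit false
set_option linter.all false
set_option maxHeartbeats 4000000

open Polynomial Pool.Agent.W343.BSD Pool.Agent.W309.RK Pool.Agent.TH958.T4

namespace Pool.Agent.Results.MP_ff7320_nt.UnboundedRankOneTorsionPoint

/-- The conditions on the function `h`: `h` and the functions `h - ζ` with `ζ ^ m = 1` have exactly one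
zero each, of odd order and at a place of odd degree; the poles of `h`, with the exception of one
pole, which is a place of odd degree, have orders divisible by four. -/
structure Conditions (k : Type) {K : Type} [Field k] [Field K] [Algebra k K] (m : ℕ) (h : K) :
    Prop where
  zero : OneZero k h
  shift : ∀ ζ : k, ζ ^ m = 1 → OneZero k (h - algebraMap k K ζ)
  pole : ∃ v : FF.Place k K, v.ord h < 0 ∧ Odd (S.deg v) ∧
    ∀ w : FF.Place k K, w.ord h < 0 → ¬ (4 : ℤ) ∣ w.ord h → w = v

/-- The first coefficient of `E_h`. -/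
def coeffA {K : Type} [Field K] (m : ℕ) (h : K) : K := -(1 / 3) - h ^ m

/-- The second coefficient of `E_h`. -/
def coeffB {K : Type} [Field K] (m : ℕ) (h : K) : K := 2 / 27 - 2 * h ^ m / 3

/-- The curve `E_h : y ^ 2 = x ((x - 1) ^ 2 - h ^ m)`, in short form `y ^ 2 = x ^ 3 + a x + b` (with `x`
replaced by `x + 2 / 3`). -/
def curve {K : Type} [Field K] (m : ℕ) (h : K) : WeierstrassCurve K :=
  ⟨0, 0, 0, coeffA m h, coeffB m h⟩

open Classical in
/-- `E_h` is an elliptic curve whose `j`-invariant `6912 a ^ 3 / (4 a ^ 3 + 27 b ^ 2)` is not in `k`, with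
exactly one `K`-rational point of order two and `ρ` linearly independent points over `K`; its
`L`-function vanishes at `T = 1 / |k|` to order at most `ρ`: if it is `(1 - |k| T) ^ M G(T)` with `G` in
`ℤ[T]`, then `M ≤ ρ`. If it is a polynomial with order of vanishing `r` and the rank is at most `r`, then
the rank and `r` are equal to `ρ`. -/
def RankAndOrder (k : Type) {K : Type} [Field k] [Finite k] [Field K] [Algebra k K] (ρ m : ℕ)
    (h : K) : Prop :=
  4 * coeffA m h ^ 3 + 27 * coeffB m h ^ 2 ≠ 0 ∧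
  (∀ c : k, 6912 * coeffA m h ^ 3 / (4 * coeffA m h ^ 3 + 27 * coeffB m h ^ 2) ≠
    algebraMap k K c) ∧
  Set.ncard {P : (curve m h).toAffine.Point | P + P = 0} = 2 ∧
  (∃ P : Fin ρ → (curve m h).toAffine.Point, LinearIndependent ℤ P) ∧
  (∀ M : ℕ, S.VanishesTo k (coeffA m h) (coeffB m h) M → M ≤ ρ) ∧
  ∀ r : ℕ, Pool.Agent.W313.Gr.HasOrder k (coeffA m h) (coeffB m h) r →
    Module.rank ℤ (curve m h).toAffine.Point ≤ r →
      r = ρ ∧ Module.rank ℤ (curve m h).toAffine.Point = ρ

theorem aT_eq {K : Type} [Field K] (m : ℕ) (h : K) : Pool.Agent.TH958.T5.aT 0 m h = coeffA m h := by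
  unfold Pool.Agent.TH958.T5.aT Pool.Agent.TH958.T5.aa coeffA
  rw [pow_zero, one_pow, one_mul]

theorem bT_eq {K : Type} [Field K] (m : ℕ) (h : K) : Pool.Agent.TH958.T5.bT 0 m h = coeffB m h := by
  unfold Pool.Agent.TH958.T5.bT Pool.Agent.TH958.T5.bb coeffB
  rw [pow_zero, one_pow, one_mul]

/-- (1) Let `k` be a finite field with `p ^ (2 ν n)` elements, `p ≥ 5` a prime, `p ^ ν` congruent
to `1` modulo `4`, `m` a divisor of `(p ^ ν + 1) / 2`, and let `K` be the function field of a curve over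
`k` with constant field `k` and odd class number. Let `h` in `K` satisfy the conditions. Then the
elliptic curve `y ^ 2 = x ((x - 1) ^ 2 - h ^ m)` has exactly one `K`-rational point of order two, at
least `m - 1` independent points over `K`, and its `L`-function vanishes at `T = 1 / |k|` to order at
most `m - 1`; if the rank is at most the order, both are `m - 1`.

(2) There are such `k`, for every `p ≥ 5` and `ν ≥ 1`, such that for `K = k(t)` the conditions on `K`
hold and those on `h` hold, for all divisors `m` of `(p ^ ν + 1) / 2`, for polynomials `h` of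
arbitrarily large degree. -/
theorem result :
    (∀ (p ν n m : ℕ), p.Prime → 5 ≤ p → 1 ≤ ν → p ^ ν % 4 = 1 → m ∣ (p ^ ν + 1) / 2 →
      ∀ (k K : Type) [Field k] [Finite k] [Field K] [Algebra k K],
      Nat.card k = p ^ (2 * ν * n) → IsCurveField k K →
      Odd (S.classNumber k K) → ∀ h : K, Conditions k m h → RankAndOrder k (m - 1) m h) ∧
    ∀ (p ν : ℕ), p.Prime → 5 ≤ p → 1 ≤ ν → ∃ (k : Type) (_ : Field k) (_ : Finite k) (n : ℕ),
      Nat.card k = p ^ (2 * ν * n) ∧ IsCurveField k (RatFunc k) ∧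
      Odd (S.classNumber k (RatFunc k)) ∧ ∀ N : ℕ, ∃ h : k[X], N ≤ h.natDegree ∧
        ∀ m : ℕ, m ∣ (p ^ ν + 1) / 2 → Conditions k m (algebraMap k[X] (RatFunc k) h) := by
  refine ⟨?_, ?_⟩
  · intro p ν n m hp hp5 hν hQ4 hm k K _ _ _ _ hcard hK hcl h hA
    haveI : FF.IsFF k K := ⟨hK.essFiniteType, hK.trdeg_eq_one⟩
    obtain ⟨h0, h1, h2, h3, h4, h5⟩ := Pool.Agent.TH958.TA.main_odd (δ := 0) hp hp5 hQ4 hν hm
      (Nat.zero_le 1) hcard hK.algClosed hcl (h := h) ⟨hA.zero, hA.shift, hA.pole⟩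
    rw [aT_eq, bT_eq] at h0 h1 h2 h3 h4 h5
    exact ⟨h1, fun c hc => h0 c ((div_eq_iff h1).1 hc), h2, h3, h4, h5⟩
  · intro p ν hp hp5 hν
    obtain ⟨k, i1, i2, n, h1, h2, h3, h4⟩ := Pool.Agent.TH958.TA.exist hp hp5 hν
    refine ⟨k, i1, i2, n, h1, h2, h3, fun N => ?_⟩
    obtain ⟨h, h5, h6⟩ := h4 N
    refine ⟨h, h5, fun m hm => ?_⟩
    obtain ⟨h8, -⟩ := h6 m hm
    exact ⟨h8.zero, h8.shift, h8.pole⟩

end Pool.Agent.Results.MP_ff7320_nt.UnboundedRankOneTorsionPoint
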